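import Pool.Agent.L7h35.RQ5.Stm

set_option autoImplicit false

/-!
Project QR (MP_f9e5d9_nt): UPP.
-/

open Filter Topology

namespace Pool.Agent.L7h65.RQ5

open Pool.Agent.L7h35.RQ5

lemma le_of_pow_bound {G c K : ℝ} (hc : 0 < c) (h : ∀ d : ℕ, G ^ d ≤ K * c ^ d) : G ≤ c := by
  by_contra hlt
  push Not at hlt
  have h1 : 1 < G / c := (one_lt_div hc).2 hlt
  have h2 := tendsto_pow_atTop_atTop_of_one_lt h1
  obtain ⟨d, hd⟩ := (h2.eventually (eventually_gt_atTop K)).exists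
  have h3 := h d
  rw [div_pow, lt_div_iff₀ (pow_pos hc d)] at hd
  linarith

lemma geo_bound {ρ c : ℝ} (h0 : 0 < ρ) (h1 : ρ < 1)
    (h : ∀ M : ℕ, 1 + 2 * ∑ j ∈ Finset.range M, ρ ^ (j + 1) ≤ c) : 1 + ρ ≤ c * (1 - ρ) := by
  have h2 : Tendsto (fun M : ℕ => 1 + 2 * ∑ j ∈ Finset.range M, ρ ^ (j + 1)) atTop
      (𝓝 (1 + 2 * (ρ * (1 - ρ)⁻¹))) := by
    apply Tendsto.const_add
    apply Tendsto.const_mul
    have h3 := (hasSum_geometric_of_lt_one h0.le h1).tendsto_sum_nat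
    have h4 := h3.const_mul ρ
    refine h4.congr (fun M => ?_)
    rw [Finset.mul_sum]
    apply Finset.sum_congr rfl
    intro j _
    rw [pow_succ']
  have h3 : 1 + 2 * (ρ * (1 - ρ)⁻¹) ≤ c := le_of_tendsto' h2 h
  have h4 : 0 < 1 - ρ := by linarith
  have h5 := mul_le_mul_of_nonneg_right h3 h4.le
  have h6 : (1 + 2 * (ρ * (1 - ρ)⁻¹)) * (1 - ρ) = 1 + ρ := by
    field_simp
    ring
  linarith

theorem s_UPP (hG : S_GEN) : S_UPP := by
  intro L hL hh
  have hc1 : (1 : ℝ) < 2 ^ (1 / L) := Real.one_lt_rpow (by norm_num) (by positivity)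
  obtain ⟨c, hc⟩ : ∃ c : ℝ, c = 2 ^ (1 / L) := ⟨_, rfl⟩
  have hG' := hG L hL hh
  rw [← hc] at hG' hc1
  have hcpos : 0 < c := by linarith
  have key : ∀ ρ : ℝ, 0 < ρ → ρ * c < 1 → 1 + ρ ≤ c * (1 - ρ) := by
    intro ρ h0 h1
    have h2 : ρ < 1 := by nlinarith
    apply geo_bound h0 h2
    intro M
    obtain ⟨K, hK⟩ := hG' ρ M h0 h1
    exact le_of_pow_bound hcpos hK
  have h1 : c + 1 ≤ c * (c - 1) := by
    by_contra hlt
    push Not at hlt
    have h2 : (c - 1) / (c + 1) < 1 / c := by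
      rw [div_lt_div_iff₀ (by linarith) hcpos]
      linarith
    obtain ⟨ρ, hρ1, hρ2⟩ := exists_between h2
    have h3 : 0 < (c - 1) / (c + 1) := div_pos (by linarith) (by linarith)
    have h4 : 0 < ρ := h3.trans hρ1
    have h5 : ρ * c < 1 := by
      rw [lt_div_iff₀ hcpos] at hρ2
      exact hρ2
    have h6 := key ρ h4 h5
    rw [div_lt_iff₀ (by linarith)] at hρ1
    linarith
  have h2 : 1 + Real.sqrt 2 ≤ c := by
    have h3 : Real.sqrt 2 ≤ c - 1 := by
      apply Real.sqrt_le_iff.2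
      constructor
      · linarith
      · nlinarith
    linarith
  have hs : 0 < Real.sqrt 2 := Real.sqrt_pos.2 (by norm_num)
  have h3 : Real.log (1 + Real.sqrt 2) ≤ Real.log c := Real.log_le_log (by linarith) h2
  have h4 : Real.log c = 1 / L * Real.log 2 := by
    rw [hc, Real.log_rpow (by norm_num)]
  have h5 : 0 < Real.log (1 + Real.sqrt 2) := Real.log_pos (by linarith)
  rw [le_div_iff₀ h5]
  rw [h4] at h3
  have h6 := mul_le_mul_of_nonneg_left h3 hL.le
  have h7 : L * (1 / L * Real.log 2) = Real.log 2 := by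
    field_simp
  linarith

end Pool.Agent.L7h65.RQ5
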